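import Pool.Agent.Helper81.Sus3.Goals
import Pool.Agent.Helper81.Sus2.PAR

/-!
# Packet SUS3-PAH: enlarging the number of guessed letters
-/

namespace Pool.Agent.Helper79.Sus3

open Pool.Agent.Helper65.LinSpace Pool.Agent.Helper78.Mpc Pool.Agent.Helper28.Ram Finset Filter
open Pool.Agent.Helper28.Sus
open Pool.Agent.Helper81.Sus2 Pool.Agent.Helper81.Sus3
open Pool.Agent.Helper81.Tok3 (gH)

theorem ev_pow : ∃ M₀ : ℕ, ∀ m : ℕ, M₀ ≤ m → 7200 * m ^ 6 ≤ 2 ^ m := by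
  have h := tendsto_pow_const_div_const_pow_of_one_lt 6 (r := 2) one_lt_two
  have h1 := h.eventually (gt_mem_nhds (show (0 : ℝ) < 1 / 7200 by norm_num))
  obtain ⟨M₀, hM⟩ := eventually_atTop.1 h1
  refine ⟨M₀, fun m hm => ?_⟩
  have h2 := hM m hm
  have h3 : (0 : ℝ) < 2 ^ m := by positivity
  rw [div_lt_iff₀ h3] at h2
  have h4 : (7200 : ℝ) * (m : ℝ) ^ 6 ≤ 2 ^ m := by linarith
  exact_mod_cast h4

/-- Powers of logarithms are small. -/
theorem log_small {n : ℕ} (hn : 1 ≤ n) (h : 7200 * (ll n) ^ 6 ≤ 2 ^ ll n) :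
    60 * ((Nat.log 2 n : ℝ) + 1) ^ 3 ≤ ((n : ℝ) + 1) ^ ((1 : ℝ) / 2) := by
  have h1 : 2 ^ ll n ≤ 2 * n := by
    unfold ll
    rw [pow_succ, mul_comm]
    exact Nat.mul_le_mul_left 2 (Nat.pow_log_le_self 2 (by omega))
  have h2 : 3600 * (ll n) ^ 6 ≤ n + 1 := by omega
  have h3 : (3600 : ℝ) * ((Nat.log 2 n : ℝ) + 1) ^ 6 ≤ (n : ℝ) + 1 := by
    have h4 : ((3600 * (ll n) ^ 6 : ℕ) : ℝ) ≤ ((n + 1 : ℕ) : ℝ) := by exact_mod_cast h2
    unfold ll at h4
    push_cast at h4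
    exact h4
  rw [← Real.sqrt_eq_rpow]
  apply Real.le_sqrt_of_sq_le
  calc (60 * ((Nat.log 2 n : ℝ) + 1) ^ 3) ^ 2 = 3600 * ((Nat.log 2 n : ℝ) + 1) ^ 6 := by ring
    _ ≤ _ := h3

/-- **Packet SUS3-PAH.** -/
theorem pah (hP : Pool.Agent.Helper81.Sus3.PAR_stmt) :
    Pool.Agent.Helper81.Sus3.PAH_stmt := by
  intro C c
  obtain ⟨M₀, hM₀⟩ := ev_pow
  filter_upwards [hP (125 * |C| + 1) c, ev_ll_ge M₀, eventually_ge_atTop (c + 1)] with n hn hl hnc
    s a x h z k h1 h2 h3 h4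
  have hC : C ≤ |C| := le_abs_self C
  have hC0 := abs_nonneg C
  have hlog := log_small (n := n) (by omega) (hM₀ _ hl)
  have hln : n + 1 ≤ 2 ^ ll n := lt_two_pow_ll n
  have hll : (ll n : ℝ) = (Nat.log 2 n : ℝ) + 1 := by
    unfold ll
    push_cast
    ring
  have h4' : (k + 1) * (z + s + (Nat.log 2 n + 1)) ≤ c * (n + 1) :=
    (Nat.mul_le_mul_left _ (by omega)).trans h4
  set A : ℝ := ((n : ℝ) + 1) ^ ((3 : ℝ) / 2) with hA
  set B : ℝ := ((n : ℝ) + 1) ^ ((1 : ℝ) / 2) with hB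
  set D : ℝ := (n : ℝ) + 1 with hD
  have hA0 : 0 ≤ A := by rw [hA]; positivity
  have hB0 : 0 ≤ B := by rw [hB]; positivity
  have hD0 : 0 ≤ D := by rw [hD]; positivity
  set L : ℝ := (Nat.log 2 n : ℝ) + 1 with hL
  have hL1 : 1 ≤ L := by
    rw [hL]
    have : (0 : ℝ) ≤ Nat.log 2 n := Nat.cast_nonneg _
    linarith
  have hs0 : (0 : ℝ) ≤ s := Nat.cast_nonneg s
  have hh0 : (0 : ℝ) ≤ h := Nat.cast_nonneg h
  have hx0 : (0 : ℝ) ≤ x := Nat.cast_nonneg x
  have ha0 : (0 : ℝ) ≤ a := Nat.cast_nonneg a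
  have g1 : ∀ r : ℝ, 0 ≤ r → r ≤ 125 → ∀ Y Z : ℝ, 0 ≤ Y → Z ≤ C * Y →
      r * Z ≤ (125 * |C| + 1) * Y := by
    intro r hr0 hr Y Z hY hZ
    have e1 : r * Z ≤ r * (C * Y) := mul_le_mul_of_nonneg_left hZ hr0
    have e2 : C * Y ≤ |C| * Y := mul_le_mul_of_nonneg_right hC hY
    have e3 : r * (C * Y) ≤ r * (|C| * Y) := mul_le_mul_of_nonneg_left e2 hr0
    have e4 : r * (|C| * Y) ≤ 125 * (|C| * Y) :=
      mul_le_mul_of_nonneg_right hr (mul_nonneg hC0 hY)
    have e5 : (125 * |C| + 1) * Y = 125 * (|C| * Y) + Y := by ring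
    linarith
  by_cases hsh : s < h
  · -- the number is enlarged
    refine ⟨h + 2 * ll n, by omega, fun _ => ?_, ?_⟩
    · have e1 : 2 ^ (s + 1) ≤ 2 ^ h := Nat.pow_le_pow_right (by norm_num) hsh
      have e2 : x + c * n + 1 ≤ (c * n + 1) * (x + 1) := by
        have : 0 ≤ c * n * x := Nat.zero_le _
        nlinarith
      have e3 : c * n + 1 ≤ 2 ^ (2 * ll n) := by
        have e4 : c * n ≤ n * n := Nat.mul_le_mul_right _ (by omega)
        have e5 : (n + 1) * (n + 1) ≤ 2 ^ ll n * 2 ^ ll n := Nat.mul_le_mul hln hln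
        have e6 : (n + 1) * (n + 1) = n * n + 2 * n + 1 := by ring
        rw [two_mul, pow_add]
        omega
      calc 2 ^ (s + 1) * (x + c * n + 1) ≤ 2 ^ h * ((c * n + 1) * (x + 1)) :=
            Nat.mul_le_mul e1 e2
        _ ≤ 2 ^ h * (2 ^ (2 * ll n) * (x + 1)) :=
            Nat.mul_le_mul_left _ (Nat.mul_le_mul_right _ e3)
        _ = 2 ^ (h + 2 * ll n) * (x + 1) := by rw [pow_add]; ring
    · have hc : ((h + 2 * ll n : ℕ) : ℝ) = (h : ℝ) + 2 * L := by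
        push_cast
        rw [hll]
      have q1 : (h : ℝ) + 2 * L + L ≤ 3 * ((h : ℝ) + L) := by linarith
      have q0 : (0 : ℝ) ≤ (h : ℝ) + 2 * L + L := by linarith
      have q2 : (s : ℝ) + ((h : ℝ) + 2 * L + L) ≤ 3 * ((s : ℝ) + ((h : ℝ) + L)) := by linarith
      have q3 : ((h : ℝ) + 2 * L + L) ^ 2 ≤ 9 * ((h : ℝ) + L) ^ 2 := by
        have := pow_le_pow_left₀ q0 q1 2
        calc ((h : ℝ) + 2 * L + L) ^ 2 ≤ (3 * ((h : ℝ) + L)) ^ 2 := this
          _ = _ := by ring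
      apply hn s a x (h + 2 * ll n) z k
      · rw [hc]
        calc (x : ℝ) * ((s : ℝ) + ((h : ℝ) + 2 * L + L)) * ((h : ℝ) + 2 * L + L) ^ 2
            ≤ (x : ℝ) * (3 * ((s : ℝ) + ((h : ℝ) + L))) * (9 * ((h : ℝ) + L) ^ 2) := by
              refine mul_le_mul (mul_le_mul_of_nonneg_left q2 hx0) q3 (by positivity) ?_
              positivity
          _ = 27 * ((x : ℝ) * ((s : ℝ) + ((h : ℝ) + L)) * ((h : ℝ) + L) ^ 2) := by ring
          _ ≤ _ := g1 27 (by norm_num) (by norm_num) _ _ hA0 h1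
      · rw [hc]
        by_cases hhL : L ≤ (h : ℝ)
        · have q4 : (h : ℝ) + 2 * L + 1 ≤ 3 * ((h : ℝ) + 1) := by linarith
          calc ((s : ℝ) + ((h : ℝ) + 2 * L + L)) * ((h : ℝ) + 2 * L + 1) * ((h : ℝ) + 2 * L + L)
              ≤ (3 * ((s : ℝ) + ((h : ℝ) + L))) * (3 * ((h : ℝ) + 1)) * (3 * ((h : ℝ) + L)) := by
                refine mul_le_mul (mul_le_mul q2 q4 (by positivity) (by positivity)) q1 q0 ?_
                positivity
            _ = 27 * (((s : ℝ) + ((h : ℝ) + L)) * ((h : ℝ) + 1) * ((h : ℝ) + L)) := by ring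
            _ ≤ _ := g1 27 (by norm_num) (by norm_num) _ _ hB0 h2
        · have hhL' : (h : ℝ) + 1 ≤ L := by
            have e1 : (h : ℝ) < (ll n : ℝ) := by rw [hll]; exact not_le.1 hhL
            have e2 : h < ll n := by exact_mod_cast e1
            have e3 : ((h + 1 : ℕ) : ℝ) ≤ (ll n : ℝ) := by exact_mod_cast e2
            rw [hll] at e3
            push_cast at e3
            exact e3
          have hsL : (s : ℝ) ≤ h := by exact_mod_cast hsh.le
          calc ((s : ℝ) + ((h : ℝ) + 2 * L + L)) * ((h : ℝ) + 2 * L + 1) * ((h : ℝ) + 2 * L + L)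
              ≤ (5 * L) * (3 * L) * (4 * L) := by
                refine mul_le_mul (mul_le_mul ?_ ?_ (by positivity) (by positivity)) ?_ q0 ?_
                · linarith
                · linarith
                · linarith
                · positivity
            _ = 60 * L ^ 3 := by ring
            _ ≤ B := hlog
            _ ≤ _ := by
              have e5 : (125 * |C| + 1) * B = 125 * (|C| * B) + B := by ring
              have e6 : 0 ≤ |C| * B := mul_nonneg hC0 hB0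
              linarith
      · rw [hc]
        calc (a : ℝ) * ((h : ℝ) + 2 * L + L) ^ 2 ≤ (a : ℝ) * (9 * ((h : ℝ) + L) ^ 2) :=
              mul_le_mul_of_nonneg_left q3 ha0
          _ = 9 * ((a : ℝ) * ((h : ℝ) + L) ^ 2) := by ring
          _ ≤ _ := g1 9 (by norm_num) (by norm_num) _ _ hD0 h3
      · exact h4'
  · refine ⟨h, le_rfl, fun h5 => absurd h5 hsh, ?_⟩
    apply hn s a x h z k
    · have := g1 1 (by norm_num) (by norm_num) _ _ hA0 h1
      rwa [one_mul] at this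
    · have := g1 1 (by norm_num) (by norm_num) _ _ hB0 h2
      rwa [one_mul] at this
    · have := g1 1 (by norm_num) (by norm_num) _ _ hD0 h3
      rwa [one_mul] at this
    · exact h4'

end Pool.Agent.Helper79.Sus3
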